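import Pool.Agent.H93.EN.Targets4

/-!
# Bright corners, row LI: invariance of the extension
-/

set_option autoImplicit false

namespace Pool.Agent.H64.EN

open MeasureTheory Set Metric Filter Topology Pool.Agent.H93.EN
open Pool.Agent.H93.BL hiding T_B1 T_B2 T_B3 T_SB T_SC

variable {ι : Type} {P : Polygon ι}

/-- the signed distance along a line -/
theorem sg_add (j : ι) (y w : ℂ) (r : ℝ) :
    sg P j (y + (r : ℂ) * w) = sg P j y + r * ip w (P.n j) := by
  unfold sg
  rw [P.ip_n, ← cr_smul_right, ← cr_add_right]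
  congr 1
  ring

/-- points of a segment of a ball -/
theorem seg_ball {x y w : ℂ} {R t : ℝ} (hy : y ∈ ball x R) (hy' : y + (t : ℂ) * w ∈ ball x R)
    {r : ℝ} (hr0 : 0 ≤ r) (hrt : r ≤ t) : y + (r : ℂ) * w ∈ ball x R := by
  rcases eq_or_lt_of_le (hr0.trans hrt) with h | h
  · have h1 : r = 0 := by linarith
    rw [h1]
    simpa using hy
  · have hc := convex_ball x R
    have h2 := hc hy hy' (a := 1 - r / t) (b := r / t)
      (by rw [sub_nonneg]; exact (div_le_one h).2 hrt) (div_nonneg hr0 h.le) (by ring)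
    have h3 : (1 - r / t) • y + (r / t) • (y + (t : ℂ) * w) = y + (r : ℂ) * w := by
      have h4 : (t : ℂ) ≠ 0 := by exact_mod_cast h.ne'
      simp only [Complex.real_smul]
      push_cast
      field_simp
      ring
    rw [h3] at h2
    exact h2

theorem li_main (F : ℂ → ℂ → ℝ) (hF : InvF P F) (x : ℂ) (R : ℝ) (j : ι)
    (hC : Chart P x R (some j))
    (hsgaff : ∀ y, sg P j (P.aff j y) = -sg P j y)
    (hball : ∀ y ∈ ball x R, sg P j y ≤ 0 → P.aff j y ∈ ball x R)
    (w : ℂ) (hw : ‖w‖ = 1) (t : ℝ) (ht : 0 ≤ t) (y : ℂ) (hy : y ∈ ball x R)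
    (hy' : y + (t : ℂ) * w ∈ ball x R) (hs : sg P j y ≠ 0)
    (hs' : sg P j (y + (t : ℂ) * w) ≠ 0) :
    Phi P F (some j) (y + (t : ℂ) * w) w = Phi P F (some j) y w := by
  obtain ⟨-, hΩ, hseg⟩ := hC
  have hin : ∀ r : ℝ, 0 ≤ r → r ≤ t → y + (r : ℂ) * w ∈ ball x R :=
    fun r h1 h2 => seg_ball hy hy' h1 h2
  have hrw : ‖P.refl j w‖ = 1 := by rw [P.norm_refl, hw]
  have hup : ∀ r : ℝ, 0 ≤ r → r ≤ t → 0 < sg P j (y + (r : ℂ) * w) →
      y + (r : ℂ) * w ∈ P.Ω := fun r h1 h2 h3 => hΩ _ (hin r h1 h2) h3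
  have hdn : ∀ r : ℝ, 0 ≤ r → r ≤ t → sg P j (y + (r : ℂ) * w) < 0 →
      P.aff j (y + (r : ℂ) * w) ∈ P.Ω := by
    intro r h1 h2 h3
    refine hΩ _ (hball _ (hin r h1 h2) h3.le) ?_
    rw [hsgaff]
    linarith
  have hlin : ∀ r : ℝ, sg P j (y + (r : ℂ) * w) = sg P j y + r * ip w (P.n j) :=
    fun r => sg_add j y w r
  have hlt := hlin t
  unfold Phi
  simp only
  rcases lt_or_gt_of_ne hs with h0 | h0
  · rcases lt_or_gt_of_ne hs' with h1 | h1
    · -- both below the line
      rw [if_neg (not_lt.2 h1.le), if_neg (not_lt.2 h0.le), P.aff_add_smul]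
      refine hF.flow _ _ t hrw ht fun r hr => ?_
      rw [← P.aff_add_smul]
      refine hdn r hr.1 hr.2 ?_
      rw [hlin]
      rw [hlt] at h1
      rcases le_or_gt (ip w (P.n j)) 0 with h | h
      · nlinarith [hr.1]
      · nlinarith [hr.2]
    · -- from below to above
      rw [if_pos h1, if_neg (not_lt.2 h0.le)]
      have ha : 0 < ip w (P.n j) := by
        rw [hlt] at h1
        by_contra h
        push Not at h
        nlinarith
      obtain ⟨t₁, ht₁⟩ : ∃ t₁ : ℝ, t₁ = -sg P j y / ip w (P.n j) := ⟨_, rfl⟩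
      have ht₁0 : 0 < t₁ := by rw [ht₁]; exact div_pos (by linarith) ha
      have ht₁m : t₁ * ip w (P.n j) = -sg P j y := by rw [ht₁, div_mul_cancel₀ _ ha.ne']
      have ht₁t : t₁ < t := by
        rw [hlt] at h1
        by_contra h
        push Not at h
        nlinarith
      have hz0 : sg P j (y + (t₁ : ℂ) * w) = 0 := by rw [hlin, ht₁m]; ring
      have hz := hseg _ (hin t₁ ht₁0.le ht₁t.le) hz0
      have haz : P.aff j (y + (t₁ : ℂ) * w) = y + (t₁ : ℂ) * w :=
        P.aff_of_mem_segment j _ (openSegment_subset_segment _ _ _ hz)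
      rw [P.aff_add_smul] at haz
      have hc := hF.cross j (P.aff j y) (P.refl j w) t₁ (t - t₁) hrw ht₁0 (by linarith)
        (by rw [P.ip_refl_n]; linarith)
        (by
          intro r hr
          rw [← P.aff_add_smul]
          refine hdn r hr.1 (by linarith [hr.2]) ?_
          rw [hlin]
          nlinarith [hr.2])
        (by rw [haz]; exact hz)
        (by
          intro r hr
          rw [haz, P.refl_refl]
          have h2 : y + (t₁ : ℂ) * w + (r : ℂ) * w = y + ((t₁ + r : ℝ) : ℂ) * w := by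
            push_cast
            ring
          rw [h2]
          refine hup _ (by linarith [hr.1]) (by linarith [hr.2]) ?_
          rw [hlin]
          nlinarith [hr.1])
      rw [haz, P.refl_refl] at hc
      rw [← hc]
      congr 1
      push_cast
      ring
  · rcases lt_or_gt_of_ne hs' with h1 | h1
    · -- from above to below
      rw [if_neg (not_lt.2 h1.le), if_pos h0]
      have ha : ip w (P.n j) < 0 := by
        rw [hlt] at h1
        by_contra h
        push Not at h
        nlinarith
      obtain ⟨t₁, ht₁⟩ : ∃ t₁ : ℝ, t₁ = -sg P j y / ip w (P.n j) := ⟨_, rfl⟩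
      have ht₁0 : 0 < t₁ := by rw [ht₁]; exact div_pos_of_neg_of_neg (by linarith) ha
      have ht₁m : t₁ * ip w (P.n j) = -sg P j y := by rw [ht₁, div_mul_cancel₀ _ ha.ne]
      have ht₁t : t₁ < t := by
        rw [hlt] at h1
        by_contra h
        push Not at h
        nlinarith
      have hz0 : sg P j (y + (t₁ : ℂ) * w) = 0 := by rw [hlin, ht₁m]; ring
      have hz := hseg _ (hin t₁ ht₁0.le ht₁t.le) hz0
      have haz : P.aff j (y + (t₁ : ℂ) * w) = y + (t₁ : ℂ) * w :=
        P.aff_of_mem_segment j _ (openSegment_subset_segment _ _ _ hz)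
      have hshift : ∀ r : ℝ, y + (t₁ : ℂ) * w + (r : ℂ) * P.refl j w =
          P.aff j (y + ((t₁ + r : ℝ) : ℂ) * w) := by
        intro r
        have h2 : y + ((t₁ + r : ℝ) : ℂ) * w = (y + (t₁ : ℂ) * w) + (r : ℂ) * w := by
          push_cast
          ring
        rw [h2, P.aff_add_smul, haz]
      have hc := hF.cross j y w t₁ (t - t₁) hw ht₁0 (by linarith) ha
        (by
          intro r hr
          refine hup r hr.1 (by linarith [hr.2]) ?_
          rw [hlin]
          nlinarith [hr.2])
        hz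
        (by
          intro r hr
          rw [hshift]
          refine hdn _ (by linarith [hr.1]) (by linarith [hr.2]) ?_
          rw [hlin]
          nlinarith [hr.1])
      rw [hshift] at hc
      rw [← hc]
      congr 3
      ring_nf
    · -- both above the line
      rw [if_pos h1, if_pos h0]
      refine hF.flow _ _ t hw ht fun r hr => ?_
      refine hup r hr.1 hr.2 ?_
      rw [hlin]
      rw [hlt] at h1
      rcases le_or_gt (ip w (P.n j)) 0 with h | h
      · nlinarith [hr.2]
      · nlinarith [hr.1]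

theorem li (h1 : T_CHT) : T_LI := by
  intro ι P F hF x R τ hC w hw t
  obtain ⟨-, hdist, -, -, hnull⟩ := h1 ι P
  cases τ with
  | none =>
    refine ae_of_all _ fun y hy hy' => ?_
    have hC' : ball x R ⊆ P.Ω := hC
    change F (y + (t : ℂ) * w) w = F y w
    rcases le_total 0 t with ht | ht
    · exact hF.flow y w t hw ht fun r hr => hC' (seg_ball hy hy' hr.1 hr.2)
    · have hback : y + (t : ℂ) * w + ((-t : ℝ) : ℂ) * w = y := by
        push_cast
        ring
      have h2 := hF.flow (y + (t : ℂ) * w) w (-t) hw (by linarith) fun r hr =>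
        hC' (seg_ball hy' (by rw [hback]; exact hy) hr.1 hr.2)
      rw [hback] at h2
      exact h2.symm
  | some j =>
    have hx0 : 0 ≤ sg P j x := hC.1
    have hsgaff : ∀ y, sg P j (P.aff j y) = -sg P j y := fun y => (hdist j y y).1
    have hball : ∀ y ∈ ball x R, sg P j y ≤ 0 → P.aff j y ∈ ball x R := by
      intro y hy hs
      exact lt_of_le_of_lt ((hdist j y x).2.2 hx0 hs) hy
    have hn1 : ∀ᵐ y : ℂ, sg P j y ≠ 0 := by
      rw [ae_iff]
      simpa using hnull j
    have hn2 : ∀ᵐ y : ℂ, sg P j (y + (t : ℂ) * w) ≠ 0 :=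
      (measurePreserving_add_right (volume : Measure ℂ) ((t : ℂ) * w)).quasiMeasurePreserving.ae
        hn1
    filter_upwards [hn1, hn2] with y hs hs' hy hy'
    rcases le_total 0 t with ht | ht
    · exact li_main F hF x R j hC hsgaff hball w hw t ht y hy hy' hs hs'
    · have hback : y + (t : ℂ) * w + ((-t : ℝ) : ℂ) * w = y := by
        push_cast
        ring
      have h2 := li_main F hF x R j hC hsgaff hball w hw (-t) (by linarith) (y + (t : ℂ) * w) hy'
        (by rw [hback]; exact hy) hs' (by rw [hback]; exact hs)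
      rw [hback] at h2
      exact h2.symm

end Pool.Agent.H64.EN
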